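import Pool.Agent.Lib_helper54.DSF.CHA
import Pool.Agent.Lib_helper54.DSF.FRX

/-!
# Density of the primes at which one of several rational numbers is not a square
-/

set_option autoImplicit false

namespace Pool.Agent.VLD

open NumberField
open Pool.Agent.DS (Qbar GQ Induces FrobIn cha frx)
open Pool.Agent.RS.Main (DirichletGE primeSum)

/-- removing finitely many primes -/
theorem dge_finite {S T : Set ℕ} {δ : ℝ} (hS : DirichletGE S δ) (B : Finset ℕ)
    (h : ∀ p ∈ S, p.Prime → p ∉ B → p ∈ T) : DirichletGE T δ := by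
  classical
  obtain ⟨C, hC⟩ := hS
  refine ⟨C + (B.card : ℝ), fun s hs => ?_⟩
  have h1 := hC s hs
  have hsum : ∀ U : Set ℕ, Summable fun p : Nat.Primes =>
      U.indicator (fun q : ℕ => (q : ℝ) ^ (-s)) p := fun U => Pool.Agent.DS.cha_summable hs U
  have h2 : primeSum S s ≤ primeSum T s + primeSum (B : Set ℕ) s := by
    rw [primeSum, primeSum, primeSum, ← (hsum T).tsum_add (hsum _)]
    refine Summable.tsum_le_tsum ?_ (hsum S) ((hsum T).add (hsum _))
    intro p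
    have hT0 : 0 ≤ T.indicator (fun q : ℕ => (q : ℝ) ^ (-s)) (p : ℕ) :=
      Set.indicator_nonneg (fun q _ => Real.rpow_nonneg (Nat.cast_nonneg q) _) _
    have hB0 : 0 ≤ (B : Set ℕ).indicator (fun q : ℕ => (q : ℝ) ^ (-s)) (p : ℕ) :=
      Set.indicator_nonneg (fun q _ => Real.rpow_nonneg (Nat.cast_nonneg q) _) _
    by_cases hp : (p : ℕ) ∈ S
    · by_cases hb : (p : ℕ) ∈ B
      · rw [Set.indicator_of_mem hp, Set.indicator_of_mem (Finset.mem_coe.mpr hb)]
        linarith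
      · rw [Set.indicator_of_mem hp, Set.indicator_of_mem (h p hp p.2 hb)]
        linarith
    · rw [Set.indicator_of_notMem hp]
      exact add_nonneg hT0 hB0
  have h3 : primeSum (B : Set ℕ) s ≤ B.card := by
    rw [primeSum]
    refine (hsum (B : Set ℕ)).tsum_le_of_sum_le fun F => ?_
    have h4 : ∀ p ∈ F, (B : Set ℕ).indicator (fun q : ℕ => (q : ℝ) ^ (-s)) (p : ℕ) ≤
        if (p : ℕ) ∈ B then (1 : ℝ) else 0 := by
      intro p _
      by_cases hb : (p : ℕ) ∈ B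
      · rw [Set.indicator_of_mem (Finset.mem_coe.mpr hb), if_pos hb]
        exact Real.rpow_le_one_of_one_le_of_nonpos (by exact_mod_cast p.2.one_lt.le) (by linarith)
      · rw [Set.indicator_of_notMem (by simpa using hb), if_neg hb]
    refine (Finset.sum_le_sum h4).trans ?_
    rw [Finset.sum_ite, Finset.sum_const_zero, add_zero, Finset.sum_const, nsmul_eq_mul, mul_one]
    have h5 : (F.filter fun p : Nat.Primes => (p : ℕ) ∈ B).card ≤ B.card := by
      refine Finset.card_le_card_of_injOn (fun p : Nat.Primes => (p : ℕ)) ?_ ?_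
      · intro p hp
        simpa using (Finset.mem_filter.mp hp).2
      · intro p _ q _ hpq
        exact Subtype.ext hpq
    exact_mod_cast h5
  linarith

/-- the square roots -/
theorem exists_root (d : ℚ) : ∃ r : Qbar, r ^ 2 = algebraMap ℚ Qbar d := by
  obtain ⟨r, hr⟩ := IsAlgClosed.exists_pow_nat_eq (algebraMap ℚ Qbar d) (n := 2) (by norm_num)
  exact ⟨r, hr⟩

/-- the sign of `σ r / r` -/
theorem sign_root {d : ℚ} {r : Qbar} (hr : r ^ 2 = algebraMap ℚ Qbar d) (σ : GQ) :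
    σ r = r ∨ σ r = -r := by
  have h1 : (σ r) ^ 2 = r ^ 2 := by
    rw [← map_pow, hr]
    exact σ.commutes d
  exact sq_eq_sq_iff_eq_or_eq_neg.mp h1

open scoped Classical in
/-- the sign character of one square root -/
noncomputable def sgn {d : ℚ} {r : Qbar} (hr : r ^ 2 = algebraMap ℚ Qbar d) (hd : d ≠ 0) :
    GQ →* ℤˣ where
  toFun σ := if σ r = r then 1 else -1
  map_one' := by simp
  map_mul' σ τ := by
    have hr0 : r ≠ 0 := by
      rintro rfl
      apply hd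
      have : (0 : Qbar) = algebraMap ℚ Qbar d := by rw [← hr]; ring
      exact (map_eq_zero (algebraMap ℚ Qbar)).mp this.symm
    have hne : -r ≠ r := by
      intro h
      apply hr0
      have h3 : (2 : Qbar) * r = 0 := by linear_combination -h
      have h2 : (2 : Qbar) ≠ 0 := two_ne_zero
      exact (mul_eq_zero.mp h3).resolve_left h2
    have hmul : (σ * τ) r = σ (τ r) := rfl
    rw [hmul]
    rcases sign_root hr σ with h1 | h1 <;> rcases sign_root hr τ with h2 | h2 <;>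
      simp [h1, h2, hne]

open scoped Classical in
theorem sgn_spec {d : ℚ} {r : Qbar} (hr : r ^ 2 = algebraMap ℚ Qbar d) (hd : d ≠ 0) (σ : GQ) :
    σ r = ((sgn hr hd σ : ℤ) : Qbar) * r := by
  have hdef : sgn hr hd σ = if σ r = r then (1 : ℤˣ) else -1 := rfl
  rw [hdef]
  rcases sign_root hr σ with h1 | h1
  · rw [if_pos h1, h1]; simp
  · by_cases h : σ r = r
    · rw [if_pos h, h]; simp
    · rw [if_neg h, h1]; simp

/-- a product of square roots that is fixed by the Galois group -/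
theorem fixed_prod {n : ℕ} {d : Fin n → ℚ} {r : Fin n → Qbar}
    (hr : ∀ i, r i ^ 2 = algebraMap ℚ Qbar (d i)) (s : Finset (Fin n))
    (h : ∀ σ : GQ, σ (∏ i ∈ s, r i) = ∏ i ∈ s, r i) : IsSquare (∏ i ∈ s, d i) := by
  have := Pool.Agent.DS.frx_gal
  have h1 : (∏ i ∈ s, r i) ∈ Set.range (algebraMap ℚ Qbar) := by
    rw [InfiniteGalois.mem_range_algebraMap_iff_fixed]
    exact h
  obtain ⟨q, hq⟩ := h1
  refine ⟨q, ?_⟩
  apply (algebraMap ℚ Qbar).injective
  rw [map_mul, hq, map_prod, ← Finset.prod_mul_distrib]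
  refine Finset.prod_congr rfl fun i _ => ?_
  rw [← hr i]
  ring

/-- the sign characters together -/
noncomputable def sgns {n : ℕ} {d : Fin n → ℚ} {r : Fin n → Qbar}
    (hr : ∀ i, r i ^ 2 = algebraMap ℚ Qbar (d i)) (hd : ∀ i, d i ≠ 0) : GQ →* (Fin n → ℤˣ) :=
  MonoidHom.pi fun i => sgn (hr i) (hd i)

theorem sgns_apply {n : ℕ} {d : Fin n → ℚ} {r : Fin n → Qbar}
    (hr : ∀ i, r i ^ 2 = algebraMap ℚ Qbar (d i)) (hd : ∀ i, d i ≠ 0) (σ : GQ) (i : Fin n) :
    sgns hr hd σ i = sgn (hr i) (hd i) σ := rfl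

theorem sgn_prod {n : ℕ} {d : Fin n → ℚ} {r : Fin n → Qbar}
    (hr : ∀ i, r i ^ 2 = algebraMap ℚ Qbar (d i)) (hd : ∀ i, d i ≠ 0) (s : Finset (Fin n))
    (σ : GQ) : σ (∏ i ∈ s, r i) = ((∏ i ∈ s, sgn (hr i) (hd i) σ : ℤˣ) : ℤ) * ∏ i ∈ s, r i := by
  rw [map_prod, Finset.prod_congr rfl fun i _ => sgn_spec (hr i) (hd i) σ,
    Finset.prod_mul_distrib]
  congr 1
  push_cast
  rfl

/-- the kernel of the sign characters is open -/
theorem sgns_open {n : ℕ} {d : Fin n → ℚ} {r : Fin n → Qbar}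
    (hr : ∀ i, r i ^ 2 = algebraMap ℚ Qbar (d i)) (hd : ∀ i, d i ≠ 0) :
    IsOpen ((sgns hr hd).ker : Set GQ) := by
  have hA := Pool.Agent.DS.frx_alg
  have h1 : IsOpen (⋂ i, (MulAction.stabilizer GQ (r i) : Set GQ)) :=
    isOpen_iInter_of_finite fun i => stabilizer_isOpen_of_isIntegral (K := ℚ) (L := Qbar) (r i)
  have h2 : ((⨅ i, MulAction.stabilizer GQ (r i) : Subgroup GQ) : Set GQ) =
      ⋂ i, (MulAction.stabilizer GQ (r i) : Set GQ) := by
    simp
  refine Subgroup.isOpen_mono (H₁ := ⨅ i, MulAction.stabilizer GQ (r i)) ?_ (by rw [h2]; exact h1)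
  intro σ hσ
  rw [MonoidHom.mem_ker]
  funext i
  rw [sgns_apply]
  have h3 : σ (r i) = r i := by
    have h4 := (Subgroup.mem_iInf.mp hσ) i
    rw [MulAction.mem_stabilizer_iff] at h4
    exact h4
  have h5 := sgn_spec (hr i) (hd i) σ
  rw [h3] at h5
  have hr0 : r i ≠ 0 := by
    intro h0
    have h6 := hr i
    rw [h0] at h6
    apply hd i
    have h7 : algebraMap ℚ Qbar (d i) = 0 := by rw [← h6]; ring
    exact (map_eq_zero (algebraMap ℚ Qbar)).mp h7
  rcases Int.units_eq_one_or (sgn (hr i) (hd i) σ) with h6 | h6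
  · rw [h6]; rfl
  · exfalso
    rw [h6] at h5
    apply hr0
    have h7 : (2 : Qbar) * r i = 0 := by
      push_cast at h5
      linear_combination h5
    exact (mul_eq_zero.mp h7).resolve_left two_ne_zero

/-- the image of the sign characters has at least `2 ^ n` elements -/
theorem card_range {n : ℕ} {d : Fin n → ℚ} {r : Fin n → Qbar}
    (hr : ∀ i, r i ^ 2 = algebraMap ℚ Qbar (d i)) (hd : ∀ i, d i ≠ 0)
    (h : ∀ s : Finset (Fin n), s.Nonempty → ¬ IsSquare (∏ i ∈ s, d i)) :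
    2 ^ n ≤ Nat.card (sgns hr hd).range := by
  classical
  let χ : Finset (Fin n) → ((sgns hr hd).range →* ℚ) := fun s =>
    { toFun := fun x => ((∏ i ∈ s, x.1 i : ℤˣ) : ℤ)
      map_one' := by simp
      map_mul' := fun x y => by
        simp only [Subgroup.coe_mul, Pi.mul_apply, Finset.prod_mul_distrib]
        push_cast
        rfl }
  have hχ : ∀ s (σ : GQ), χ s ⟨sgns hr hd σ, σ, rfl⟩ =
      (((∏ i ∈ s, sgn (hr i) (hd i) σ : ℤˣ) : ℤ) : ℚ) := fun s σ => rfl
  have hinj : Function.Injective χ := by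
    intro s t hst
    by_contra hne
    have hne2 : (symmDiff s t).Nonempty := by
      rw [Finset.nonempty_iff_ne_empty]
      intro h0
      exact hne (symmDiff_eq_bot.mp h0)
    refine h _ hne2 (fixed_prod hr _ fun σ => ?_)
    rw [sgn_prod hr hd]
    have h1 : ∏ i ∈ symmDiff s t, sgn (hr i) (hd i) σ = 1 := by
      have h2 : (∏ i ∈ s, sgn (hr i) (hd i) σ) = ∏ i ∈ t, sgn (hr i) (hd i) σ := by
        have h3 := congrArg (fun f => f ⟨sgns hr hd σ, σ, rfl⟩) hst
        simp only [hχ] at h3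
        have h4 : (((∏ i ∈ s, sgn (hr i) (hd i) σ : ℤˣ) : ℤ)) =
            ((∏ i ∈ t, sgn (hr i) (hd i) σ : ℤˣ) : ℤ) := by exact_mod_cast h3
        exact Units.ext h4
      have h5 : ∏ i ∈ symmDiff s t, sgn (hr i) (hd i) σ =
          (∏ i ∈ s \ t, sgn (hr i) (hd i) σ) * ∏ i ∈ t \ s, sgn (hr i) (hd i) σ := by
        rw [symmDiff_def, Finset.sup_eq_union, Finset.prod_union]
        exact Finset.disjoint_left.mpr fun x hx hx' => by
          rw [Finset.mem_sdiff] at hx hx'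
          exact hx.2 hx'.1
      have h6 : (∏ i ∈ s, sgn (hr i) (hd i) σ) = (∏ i ∈ s \ t, sgn (hr i) (hd i) σ) *
          ∏ i ∈ s ∩ t, sgn (hr i) (hd i) σ := by
        rw [← Finset.prod_union (Finset.disjoint_left.mpr fun x hx hx' => by
          rw [Finset.mem_sdiff] at hx
          exact hx.2 (Finset.mem_inter.mp hx').2), Finset.sdiff_union_inter]
      have h7 : (∏ i ∈ t, sgn (hr i) (hd i) σ) = (∏ i ∈ t \ s, sgn (hr i) (hd i) σ) *
          ∏ i ∈ s ∩ t, sgn (hr i) (hd i) σ := by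
        rw [← Finset.prod_union (Finset.disjoint_left.mpr fun x hx hx' => by
          rw [Finset.mem_sdiff] at hx
          exact hx.2 (Finset.mem_inter.mp hx').1), Finset.inter_comm s t, Finset.sdiff_union_inter]
      rw [h6, h7] at h2
      have h8 := mul_right_cancel h2
      rw [h5, h8, ← sq]
      exact Int.units_sq _
    rw [h1]
    simp
  have hli := (linearIndependent_monoidHom (sgns hr hd).range ℚ).comp χ hinj
  have hfin : Fintype (sgns hr hd).range := Fintype.ofFinite _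
  have h1 := hli.fintype_card_le_finrank
  rw [Module.finrank_fintype_fun_eq_card, Fintype.card_finset, Fintype.card_fin] at h1
  rw [Nat.card_eq_fintype_card]
  exact h1

/-- if `m` is a square in `ℚ_[ℓ]` and prime to `ℓ`, then Euler's criterion holds -/
theorem euler {ℓ : ℕ} [Fact ℓ.Prime] (hℓ : ℓ ≠ 2) {m : ℤ} (hm : ¬ (ℓ : ℤ) ∣ m)
    (h : IsSquare ((m : ℤ) : ℚ_[ℓ])) : (ℓ : ℤ) ∣ m ^ (ℓ / 2) - 1 := by
  obtain ⟨x, hx⟩ := h
  have hn : ‖x‖ ≤ 1 := by
    have h1 : ‖x‖ * ‖x‖ ≤ 1 := by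
      rw [← norm_mul, ← hx]
      exact Padic.norm_int_le_one m
    nlinarith [norm_nonneg x]
  let y : ℤ_[ℓ] := ⟨x, hn⟩
  have hy : ((m : ℤ) : ℤ_[ℓ]) = y * y := by
    apply Subtype.ext
    push_cast
    exact hx
  have h2 := congrArg (PadicInt.toZMod (p := ℓ)) hy
  rw [map_intCast, map_mul] at h2
  have hy0 : PadicInt.toZMod y ≠ 0 := by
    intro h0
    rw [h0, mul_zero] at h2
    exact hm ((ZMod.intCast_zmod_eq_zero_iff_dvd m ℓ).mp h2)
  have h3 : ((m : ℤ) : ZMod ℓ) ^ (ℓ / 2) = 1 := by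
    rw [h2, ← sq, ← pow_mul]
    have hodd : 2 * (ℓ / 2) = ℓ - 1 := by
      rcases (Fact.out : ℓ.Prime).eq_two_or_odd with h | h
      · exact absurd h hℓ
      · omega
    rw [hodd]
    exact ZMod.pow_card_sub_one_eq_one hy0
  rw [← ZMod.intCast_zmod_eq_zero_iff_dvd]
  push_cast
  rw [h3, sub_self]

/-- Frobenius elements fix the square roots of squares -/
theorem frob_fix {ℓ : ℕ} [Fact ℓ.Prime] (hℓ : ℓ ≠ 2) {d : ℚ} {r : Qbar}
    (hr : r ^ 2 = algebraMap ℚ Qbar d) (hnum : ¬ (ℓ : ℤ) ∣ d.num) (hden : ¬ ℓ ∣ d.den)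
    (hsq : IsSquare ((d : ℚ) : ℚ_[ℓ])) {Q : Ideal (𝓞 Qbar)} (hQ : Q.IsPrime)
    (hlQ : (ℓ : 𝓞 Qbar) ∈ Q) {σ : GQ} (hσ : Induces Q ℓ σ) : σ r = r := by
  have hp : ℓ.Prime := Fact.out
  rcases sign_root hr σ with h1 | h1
  · exact h1
  exfalso
  set m : ℤ := d.num * d.den with hm
  have hdm : (d : ℚ) * (d.den : ℚ) ^ 2 = (m : ℚ) := by
    have h2 : d * d.den = d.num := Rat.mul_den_eq_num d
    rw [hm]
    push_cast
    rw [← h2]
    ring
  have hmsq : IsSquare ((m : ℤ) : ℚ_[ℓ]) := by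
    obtain ⟨x, hx⟩ := hsq
    refine ⟨x * (d.den : ℚ_[ℓ]), ?_⟩
    have h3 : ((m : ℤ) : ℚ_[ℓ]) = ((d : ℚ) : ℚ_[ℓ]) * (d.den : ℚ_[ℓ]) ^ 2 := by
      have h4 := congrArg (fun q : ℚ => (q : ℚ_[ℓ])) hdm
      push_cast at h4
      exact h4.symm
    rw [h3, hx]
    ring
  have hml : ¬ (ℓ : ℤ) ∣ m := by
    rw [hm]
    intro h2
    rcases (Nat.prime_iff_prime_int.mp hp).dvd_mul.mp h2 with h3 | h3
    · exact hnum h3
    · exact hden (by exact_mod_cast h3)
  obtain ⟨c, hc⟩ := euler hℓ hml hmsq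
  -- the integer `R = r * den`
  have hR2 : (r * (d.den : Qbar)) ^ 2 = ((m : ℤ) : Qbar) := by
    rw [mul_pow, hr]
    have h4 := congrArg (algebraMap ℚ Qbar) hdm
    rw [map_mul, map_pow, map_natCast, map_intCast] at h4
    exact h4
  have hint : IsIntegral ℤ (r * (d.den : Qbar)) := by
    refine IsIntegral.of_pow (n := 2) (by norm_num) ?_
    rw [hR2]
    exact isIntegral_algebraMap (R := ℤ) (x := m)
  let R : 𝓞 Qbar := ⟨r * (d.den : Qbar), hint⟩
  have hRR : R ^ 2 = ((m : ℤ) : 𝓞 Qbar) := by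
    apply Subtype.ext
    exact hR2
  have h5 := hσ R (-R) (by
    change ((-R : 𝓞 Qbar) : Qbar) = σ (r * (d.den : Qbar))
    rw [map_mul, map_natCast, h1]
    change -(r * (d.den : Qbar)) = _
    ring)
  -- `R ^ ℓ = R * m ^ (ℓ / 2)`
  have hodd : 2 * (ℓ / 2) + 1 = ℓ := by
    rcases hp.eq_two_or_odd with h | h
    · exact absurd h hℓ
    · omega
  have h6 : R ^ ℓ = R * ((m ^ (ℓ / 2) : ℤ) : 𝓞 Qbar) := by
    conv_lhs => rw [← hodd]
    rw [pow_succ, pow_mul, hRR]
    push_cast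
    ring
  have h7 : (m ^ (ℓ / 2) : ℤ) = 1 + ℓ * c := by linarith
  have h8 : 2 * R ∈ Q := by
    have h9 : 2 * R = -(-R - R ^ ℓ) - R * (c : 𝓞 Qbar) * (ℓ : 𝓞 Qbar) := by
      rw [h6, h7]
      push_cast
      ring
    rw [h9]
    exact Q.sub_mem (Q.neg_mem h5) (Q.mul_mem_left _ hlQ)
  have h10 : ((4 * m : ℤ) : 𝓞 Qbar) ∈ Q := by
    have h11 : ((4 * m : ℤ) : 𝓞 Qbar) = 2 * R * (2 * R) := by
      push_cast
      rw [← hRR]
      ring
    rw [h11]
    exact Q.mul_mem_left _ h8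
  -- the ideal contains `1`
  have hco : IsCoprime (4 * m) (ℓ : ℤ) := by
    have h12 : ¬ (ℓ : ℤ) ∣ 4 * m := by
      intro h13
      rcases (Nat.prime_iff_prime_int.mp hp).dvd_mul.mp h13 with h14 | h14
      · have h15 : ℓ ∣ 4 := by exact_mod_cast h14
        have h16 : ℓ ∣ 2 ^ 2 := by norm_num; exact h15
        exact hℓ ((Nat.prime_dvd_prime_iff_eq hp Nat.prime_two).mp (hp.dvd_of_dvd_pow h16))
      · exact hml h14
    exact ((Prime.coprime_iff_not_dvd (Nat.prime_iff_prime_int.mp hp)).mpr h12).symm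
  obtain ⟨u, v, huv⟩ := hco
  apply hQ.ne_top
  rw [Ideal.eq_top_iff_one]
  have h17 : (1 : 𝓞 Qbar) = (u : 𝓞 Qbar) * ((4 * m : ℤ) : 𝓞 Qbar) + (v : 𝓞 Qbar) * (ℓ : 𝓞 Qbar) := by
    have h18 := congrArg (fun z : ℤ => (z : 𝓞 Qbar)) huv
    push_cast at h18 ⊢
    exact h18.symm
  rw [h17]
  exact Q.add_mem (Q.mul_mem_left _ h10) (Q.mul_mem_left _ hlQ)

/-- Block DENS. -/
theorem dens {n : ℕ} (d : Fin n → ℚ) (hd : ∀ i, d i ≠ 0)
    (h : ∀ s : Finset (Fin n), s.Nonempty → ¬ IsSquare (∏ i ∈ s, d i)) (δ : ℝ) (hδ0 : 0 ≤ δ)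
    (hδ : δ < 1 - 1 / 2 ^ n) :
    Pool.Agent.RS.Main.DirichletGE
      {ℓ | ∀ _ : Fact ℓ.Prime, ∃ i, ¬ IsSquare ((d i : ℚ) : ℚ_[ℓ])} δ := by
  classical
  choose r hr using fun i => exists_root (d i)
  set G := (sgns hr hd).range with hG
  have hcard := card_range hr hd h
  have hπ : IsOpen ((sgns hr hd).rangeRestrict.ker : Set GQ) := by
    rw [MonoidHom.ker_rangeRestrict]
    exact sgns_open hr hd
  have hδ' : δ < (Nat.card ({1}ᶜ : Set G) : ℝ) / Nat.card G := by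
    have hpos : (0 : ℝ) < Nat.card G := by
      have : 0 < Nat.card G := Nat.card_pos
      exact_mod_cast this
    have h1 : (Nat.card ({1}ᶜ : Set G) : ℝ) = Nat.card G - 1 := by
      have h2 := Set.ncard_add_ncard_compl ({1} : Set G)
      rw [Set.ncard_singleton] at h2
      have h3 : (Nat.card ({1}ᶜ : Set G)) = ({1}ᶜ : Set G).ncard := Nat.card_coe_set_eq _
      rw [h3]
      have h4 : (1 : ℝ) + (({1}ᶜ : Set G).ncard : ℝ) = Nat.card G := by exact_mod_cast h2
      linarith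
    rw [h1, sub_div, div_self hpos.ne']
    refine hδ.trans_le ?_
    have h5 : (2 : ℝ) ^ n ≤ Nat.card G := by exact_mod_cast hcard
    have h6 : 1 / (Nat.card G : ℝ) ≤ 1 / 2 ^ n := one_div_le_one_div_of_le (by positivity) h5
    linarith
  have h1 := cha (sgns hr hd).rangeRestrict hπ (MonoidHom.rangeRestrict_surjective _) {1}ᶜ
    (fun x hx g => by
      intro hgx
      apply hx
      have h2 : g * x * g⁻¹ = 1 := hgx
      have h3 : x = 1 := by
        have h4 : g * x = g := by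
          have := congrArg (· * g) h2
          simpa using this
        simpa using h4
      exact h3) hδ0 hδ'
  refine dge_finite h1 (insert 2 (Finset.univ.biUnion fun i : Fin n =>
    (d i).num.natAbs.primeFactors ∪ (d i).den.primeFactors)) ?_
  intro ℓ hℓS hℓ hℓB _
  by_contra hcon
  push Not at hcon
  rw [Finset.mem_insert, not_or] at hℓB
  have hℓi : ∀ i, ¬ (ℓ : ℤ) ∣ (d i).num ∧ ¬ ℓ ∣ (d i).den := by
    intro i
    have h2 : ℓ ∉ (d i).num.natAbs.primeFactors ∪ (d i).den.primeFactors := fun h3 =>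
      hℓB.2 (Finset.mem_biUnion.mpr ⟨i, Finset.mem_univ _, h3⟩)
    rw [Finset.mem_union, not_or] at h2
    constructor
    · intro h3
      apply h2.1
      rw [Nat.mem_primeFactors]
      refine ⟨hℓ, ?_, ?_⟩
      · exact Int.natCast_dvd.mp h3
      · rw [Ne, Int.natAbs_eq_zero, Rat.num_eq_zero]
        exact hd i
    · intro h3
      apply h2.2
      rw [Nat.mem_primeFactors]
      exact ⟨hℓ, h3, (d i).den_nz⟩
  obtain ⟨Q, hQ, hlQ, σ, hσ⟩ := frx hℓ
  have h4 := hℓS Q hQ hlQ σ hσ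
  apply h4
  change (sgns hr hd).rangeRestrict σ = 1
  apply Subtype.ext
  funext i
  change sgn (hr i) (hd i) σ = 1
  have h5 := frob_fix hℓB.1 (hr i) (hℓi i).1 (hℓi i).2 (hcon i) hQ hlQ hσ
  have h6 : sgn (hr i) (hd i) σ = if σ (r i) = r i then (1 : ℤˣ) else -1 := by
    simp only [sgn]
    rfl
  rw [h6, if_pos h5]

end Pool.Agent.VLD
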